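import Mathlib

set_option autoImplicit false

/-!
# The universal polynomial of degree `m` and its discriminant as a polynomial in the coefficients
-/

namespace Pool.Agent.Q194.UG

open Polynomial

/-- the polynomial with the coefficients `a` -/
noncomputable def pol {R : Type} [CommRing R] {m : ℕ} (a : Fin (m + 1) → R) : R[X] :=
  ∑ k : Fin (m + 1), C (a k) * X ^ (k : ℕ)

theorem pol_map {R S : Type} [CommRing R] [CommRing S] (φ : R →+* S) {m : ℕ}
    (a : Fin (m + 1) → R) : (pol a).map φ = pol (fun k => φ (a k)) := by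
  unfold pol
  rw [Polynomial.map_sum]
  refine Finset.sum_congr rfl fun k _ => ?_
  simp

theorem pol_coeff {R : Type} [CommRing R] {m : ℕ} (a : Fin (m + 1) → R) (k : Fin (m + 1)) :
    (pol a).coeff k = a k := by
  classical
  unfold pol
  rw [finset_sum_coeff, Finset.sum_eq_single k]
  · simp
  · intro b _ hb
    rw [coeff_C_mul, coeff_X_pow, if_neg, mul_zero]
    intro h
    exact hb (Fin.ext h.symm)
  · intro h
    exact absurd (Finset.mem_univ _) h

theorem pol_natDegree_le {R : Type} [CommRing R] {m : ℕ} (a : Fin (m + 1) → R) :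
    (pol a).natDegree ≤ m := by
  unfold pol
  refine natDegree_sum_le_of_forall_le _ _ fun k _ => ?_
  refine (natDegree_C_mul_le _ _).trans ((natDegree_X_pow_le _).trans ?_)
  omega

theorem pol_of {R : Type} [CommRing R] (f : R[X]) (m : ℕ) (hm : f.natDegree ≤ m) :
    pol (fun k : Fin (m + 1) => f.coeff k) = f := by
  unfold pol
  rw [Fin.sum_univ_eq_sum_range (fun k => C (f.coeff k) * X ^ k)]
  conv_rhs => rw [f.as_sum_range' (m + 1) (by omega)]
  refine Finset.sum_congr rfl fun k _ => ?_
  rw [C_mul_X_pow_eq_monomial]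

/-- leading coefficient times the resultant of the universal polynomial and its derivative -/
noncomputable def dsc (m : ℕ) : MvPolynomial (Fin (m + 1)) ℚ :=
  MvPolynomial.X (Fin.last m) *
    resultant (pol fun k : Fin (m + 1) => (MvPolynomial.X k : MvPolynomial (Fin (m + 1)) ℚ))
      (derivative (pol fun k : Fin (m + 1) => (MvPolynomial.X k : MvPolynomial (Fin (m + 1)) ℚ)))
      m (m - 1)

theorem dsc_spec {L : Type} [CommRing L] (m : ℕ) (φ : MvPolynomial (Fin (m + 1)) ℚ →+* L)
    (a : Fin (m + 1) → L) (ha : ∀ k, φ (MvPolynomial.X k) = a k) :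
    φ (dsc m) = a (Fin.last m) * resultant (pol a) (derivative (pol a)) m (m - 1) := by
  have h1 : (fun k => φ (MvPolynomial.X k)) = a := funext ha
  unfold dsc
  rw [map_mul, ha, ← resultant_map_map, ← derivative_map, pol_map, h1]

theorem pol_natDegree {L : Type} [CommRing L] {m : ℕ} (a : Fin (m + 1) → L)
    (h : a (Fin.last m) ≠ 0) : (pol a).natDegree = m := by
  refine le_antisymm (pol_natDegree_le a) (le_natDegree_of_ne_zero ?_)
  have h1 := pol_coeff a (Fin.last m)
  rw [Fin.val_last] at h1
  rwa [h1]

theorem sep_of {L : Type} [Field L] {m : ℕ} (hm : 1 ≤ m) (a : Fin (m + 1) → L)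
    (h : resultant (pol a) (derivative (pol a)) m (m - 1) ≠ 0) : (pol a).Separable := by
  obtain ⟨p, q, -, -, e⟩ := exists_mul_add_mul_eq_C_resultant (m := m) (n := m - 1) (pol a)
    (derivative (pol a)) (pol_natDegree_le a)
    ((natDegree_derivative_le _).trans (Nat.sub_le_sub_right (pol_natDegree_le a) 1))
    (Or.inl (by omega))
  refine ⟨C (resultant (pol a) (derivative (pol a)) m (m - 1))⁻¹ * p,
    C (resultant (pol a) (derivative (pol a)) m (m - 1))⁻¹ * q, ?_⟩
  calc _ = C (resultant (pol a) (derivative (pol a)) m (m - 1))⁻¹ *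
        (pol a * p + derivative (pol a) * q) := by ring
    _ = 1 := by rw [e, ← C_mul, inv_mul_cancel₀ h, C_1]

theorem natDegree_deriv {L : Type} [Field L] [CharZero L] (f : L[X]) :
    (derivative f).natDegree = f.natDegree - 1 := by
  rcases Nat.eq_zero_or_pos f.natDegree with h | h
  · have h1 : derivative f = 0 := derivative_of_natDegree_zero h
    rw [h1, h, natDegree_zero]
  · refine le_antisymm (natDegree_derivative_le _) (le_natDegree_of_ne_zero ?_)
    rw [coeff_derivative, show f.natDegree - 1 + 1 = f.natDegree by omega]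
    refine mul_ne_zero (leadingCoeff_ne_zero.2 ?_) ?_
    · rintro rfl
      simp at h
    · have : ((f.natDegree - 1 : ℕ) : L) + 1 = ((f.natDegree - 1 + 1 : ℕ) : L) := by push_cast; ring
      rw [this]
      exact Nat.cast_ne_zero.2 (by omega)

theorem res_ne {L : Type} [Field L] [CharZero L] (f : L[X]) (hf : f.Separable) :
    resultant f (derivative f) f.natDegree (f.natDegree - 1) ≠ 0 := by
  have h := resultant_ne_zero f (derivative f) hf
  rwa [natDegree_deriv] at h

end Pool.Agent.Q194.UG
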