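import Mathlib
import Pool.Agent.Q194.UG.Disc
import Pool.Agent.Q51.UF.NearK
import Pool.Agent.TH551.HE.Rat

set_option autoImplicit false

/-!
# The family of all curves `y ^ 2 = f(x)`, `f` of degree `m`
-/

namespace Pool.Agent.Q194.UG

open MvPolynomial
open Pool.Agent.Q51.UF.K
open Pool.Agent.H533R3.SL (cur)

/-- the homogeneous equation `y ^ 2 w ^ (m - 2) = ∑ a k x ^ k w ^ (m - k)`; the coordinates are
`w`, `x`, `y` -/
noncomputable def eqn (m : ℕ) : MvPolynomial (Fin 3) (MvPolynomial (Fin (m + 1)) ℚ) :=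
  X 2 ^ 2 * X 0 ^ (m - 2) - ∑ k : Fin (m + 1), C (X k) * X 1 ^ (k : ℕ) * X 0 ^ (m - (k : ℕ))

/-- the excluded locus `w disc = 0` -/
noncomputable def gg (m : ℕ) : MvPolynomial (Fin 3) (MvPolynomial (Fin (m + 1)) ℚ) :=
  X 0 * C (dsc m)

theorem eqn_hom (m : ℕ) (hm : 2 ≤ m) : (eqn m).IsHomogeneous m := by
  unfold eqn
  refine IsHomogeneous.sub ?_ (IsHomogeneous.sum _ _ _ fun k _ => ?_)
  · have h := (isHomogeneous_X_pow (R := MvPolynomial (Fin (m + 1)) ℚ) (2 : Fin 3) 2).mul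
      (isHomogeneous_X_pow (0 : Fin 3) (m - 2))
    rwa [show 2 + (m - 2) = m by omega] at h
  · have h := ((isHomogeneous_C (Fin 3) (X k : MvPolynomial (Fin (m + 1)) ℚ)).mul
      (isHomogeneous_X_pow (1 : Fin 3) (k : ℕ))).mul (isHomogeneous_X_pow (0 : Fin 3) (m - (k : ℕ)))
    have hk := k.2
    rwa [show 0 + (k : ℕ) + (m - (k : ℕ)) = m by omega] at h

theorem gg_hom (m : ℕ) : (gg m).IsHomogeneous 1 := by
  have h := (isHomogeneous_X (MvPolynomial (Fin (m + 1)) ℚ) (0 : Fin 3)).mul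
    (isHomogeneous_C (Fin 3) (dsc m))
  exact h

theorem aeval_eqn {L : Type} [CommRing L] (ι : ℚ →+* L) {m : ℕ} (a : Fin (m + 1) → L) {S : Type}
    [CommRing S] [Algebra L S] (x : Fin 3 → S) :
    aeval x (fam ι a (eqn m)) = x 2 ^ 2 * x 0 ^ (m - 2) -
      ∑ k : Fin (m + 1), algebraMap L S (a k) * x 1 ^ (k : ℕ) * x 0 ^ (m - (k : ℕ)) := by
  unfold fam eqn
  simp [spc]

theorem spc_X {L : Type} [CommRing L] (ι : ℚ →+* L) {m : ℕ} (a : Fin (m + 1) → L)
    (k : Fin (m + 1)) : spc ι a (X k) = a k := by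
  simp [spc]

theorem aeval_gg {L : Type} [CommRing L] (ι : ℚ →+* L) {m : ℕ} (a : Fin (m + 1) → L)
    (x : Fin 3 → L) : aeval x (fam ι a (gg m)) = x 0 * (a (Fin.last m) *
      Polynomial.resultant (pol a) (Polynomial.derivative (pol a)) m (m - 1)) := by
  have h1 := dsc_spec m (spc ι a) a (spc_X ι a)
  rw [← h1]
  unfold fam gg
  simp

theorem cur_eval {L : Type} [Field L] {r : ℕ} (c : Fin r → Fin 3 → L) (l : Fin r → ℕ)
    (i : Fin 3) : (cur (n := 2) c l i).eval 1 = ∑ j, c j i := by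
  unfold cur
  simp [Polynomial.eval_finset_sum]

/-- no curves off the excluded locus -/
theorem cond (m : ℕ) (hm : 3 ≤ m) (r : ℕ) : ∀ (L : Type) [Field L] (ι : ℚ →+* L)
    (a : Fin (m + 1) → L) (c : Fin r → Fin (2 + 1) → L) (l : Fin r → ℕ),
    (∀ j i, (j, i) ∉ (Set.univ : Set (Fin r × Fin (2 + 1))) → c j i = 0) →
    (∀ i : Fin 1, aeval (cur c l) (fam ι a ((fun _ : Fin 1 => eqn m) i)) = 0) →
    (∃ i i', cur c l i * Polynomial.C (∑ j, c j i') ≠
      cur c l i' * Polynomial.C (∑ j, c j i)) →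
    eval (fun i => ∑ j, c j i) (fam ι a (gg m)) = 0 := by
  intro L _ ι a c l _ hz hne
  by_contra h0
  have hcz : CharZero L := charZero_of_injective_ringHom ι.injective
  have h1 : eval (fun i => ∑ j, c j i) (fam ι a (gg m)) =
      aeval (fun i => ∑ j, c j i) (fam ι a (gg m)) := by
    rw [aeval_def, ← eval_map]
    simp
  rw [h1, aeval_gg] at h0
  have hw := left_ne_zero_of_mul h0
  have h2 := right_ne_zero_of_mul h0
  have hdeg := pol_natDegree a (left_ne_zero_of_mul h2)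
  have hsep := sep_of (by omega) a (right_ne_zero_of_mul h2)
  have hQ : cur c l 0 ≠ 0 := by
    intro h
    apply hw
    have h3 := cur_eval c l 0
    rw [h, Polynomial.eval_zero] at h3
    exact h3.symm
  have h4 := hz 0
  rw [aeval_eqn, sub_eq_zero] at h4
  obtain ⟨κ, κ', hP, hY⟩ := Pool.Agent.TH551.HE.no_param L (pol a) hsep (by rw [hdeg]; exact hm)
    (cur c l 1) (cur c l 0) (cur c l 2) hQ (by
      rw [hdeg, h4, ← Fin.sum_univ_eq_sum_range (fun i => Polynomial.C ((pol a).coeff i) *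
        cur c l 1 ^ i * cur c l 0 ^ (m - i))]
      refine Finset.sum_congr rfl fun k _ => ?_
      rw [pol_coeff]
      rfl)
  have key : ∀ i : Fin 3, ∃ μ : L, cur c l i = Polynomial.C μ * cur c l 0 := by
    intro i
    fin_cases i
    · exact ⟨1, by simp⟩
    · exact ⟨κ, hP⟩
    · exact ⟨κ', hY⟩
  choose μ hμ using key
  have hs : ∀ i : Fin 3, ∑ j, c j i = μ i * ∑ j, c j 0 := by
    intro i
    have h5 := congrArg (Polynomial.eval 1) (hμ i)
    rw [Polynomial.eval_mul, Polynomial.eval_C, cur_eval, cur_eval] at h5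
    exact h5
  obtain ⟨i, i', hii⟩ := hne
  apply hii
  rw [hs i, hs i', hμ i, hμ i', Polynomial.C_mul, Polynomial.C_mul]
  ring

end Pool.Agent.Q194.UG
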