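import Mathlib
import Pool.Agent.Q194.UG.Fam

set_option autoImplicit false

/-!
# Points on the curves `y ^ 2 = f(x)` whose coordinates are quotients of sums of elements of a group
of finite rank
-/

namespace Pool.Agent.Q194.UG

open MvPolynomial
open Pool.Agent.Q51.UF.K
open Pool.Agent.Helper259.AbsHt Pool.Agent.Y215.SK
open Pool.Agent.Y215.AF (hA)
open Pool.Agent.Y215.SP (epsn epsn_pos)

variable {r : ℕ}

/-- quotients of two sums of `r` terms -/
def IsQ (Γ : Subgroup Qbarˣ) (ε : ℝ) (a : Fin 2 → Fin r → Qbar) (x : Qbar) : Prop :=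
  ∃ (u : Fin r → Qbarˣ) (s : Fin r → Qbar), (∀ j, ∃ m : ℕ, 0 < m ∧ u j ^ m ∈ Γ) ∧
    absLogHeight s < ε ∧ ∑ j, (u j : Qbar) * s j * a 1 j ≠ 0 ∧
      x = (∑ j, (u j : Qbar) * s j * a 0 j) / ∑ j, (u j : Qbar) * s j * a 1 j

/-- the height of the data -/
noncomputable def hD (a : Fin 2 → Fin r → Qbar) : ℝ :=
  absLogHeight (fun p : Fin 2 × Fin r => a p.1 p.2)

theorem hD_nonneg (a : Fin 2 → Fin r → Qbar) : 0 ≤ hD a := absLogHeight_nonneg _

/-- the vectors of the products -/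
noncomputable def VV (a b : Fin 2 → Fin r → Qbar) (J : Fin (r * r)) (i : Fin 3) : Qbar :=
  a (![1, 0, 1] i) (finProdFinEquiv.symm J).1 * b (![1, 1, 0] i) (finProdFinEquiv.symm J).2

theorem hV_VV (a b : Fin 2 → Fin r → Qbar) : hV (n := 2) (VV a b) ≤ hD a + hD b := by
  by_cases ha : (fun p : Fin 2 × Fin r => a p.1 p.2) = 0
  · have h1 : (fun p : Fin (r * r) × Fin 3 => VV a b p.1 p.2) = 0 := by
      funext p
      unfold VV
      have := congrFun ha (![1, 0, 1] p.2, (finProdFinEquiv.symm p.1).1)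
      simp only [Pi.zero_apply] at this ⊢
      rw [this, zero_mul]
    unfold hV
    rw [h1, absLogHeight_zero]
    exact add_nonneg (hD_nonneg _) (hD_nonneg _)
  by_cases hb : (fun p : Fin 2 × Fin r => b p.1 p.2) = 0
  · have h1 : (fun p : Fin (r * r) × Fin 3 => VV a b p.1 p.2) = 0 := by
      funext p
      unfold VV
      have := congrFun hb (![1, 1, 0] p.2, (finProdFinEquiv.symm p.1).2)
      simp only [Pi.zero_apply] at this ⊢
      rw [this, mul_zero]
    unfold hV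
    rw [h1, absLogHeight_zero]
    exact add_nonneg (hD_nonneg _) (hD_nonneg _)
  exact height_mul_le (fun p : Fin 2 × Fin r => a p.1 p.2) (fun p : Fin 2 × Fin r => b p.1 p.2)
    ha hb (τ := Fin (r * r) × Fin 3)
    (fun p => (![1, 0, 1] p.2, (finProdFinEquiv.symm p.1).1))
    (fun p => (![1, 1, 0] p.2, (finProdFinEquiv.symm p.1).2))

/-- the units of the products -/
noncomputable def UU (u v : Fin r → Qbarˣ) (J : Fin (r * r)) : Qbarˣ :=
  u (finProdFinEquiv.symm J).1 * v (finProdFinEquiv.symm J).2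

noncomputable def SS (s t : Fin r → Qbar) (J : Fin (r * r)) : Qbar :=
  s (finProdFinEquiv.symm J).1 * t (finProdFinEquiv.symm J).2

theorem UU_hull (Γ : Subgroup Qbarˣ) (u v : Fin r → Qbarˣ)
    (hu : ∀ j, ∃ m : ℕ, 0 < m ∧ u j ^ m ∈ Γ) (hv : ∀ j, ∃ m : ℕ, 0 < m ∧ v j ^ m ∈ Γ)
    (J : Fin (r * r)) : UU u v J ∈ DivHull Γ := by
  obtain ⟨m, hm, h1⟩ := hu (finProdFinEquiv.symm J).1
  obtain ⟨m', hm', h2⟩ := hv (finProdFinEquiv.symm J).2
  refine ⟨m * m', Nat.mul_pos hm hm', ?_⟩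
  unfold UU
  rw [mul_pow]
  refine Γ.mul_mem ?_ ?_
  · rw [pow_mul]
    exact Γ.pow_mem h1 _
  · rw [mul_comm m m', pow_mul]
    exact Γ.pow_mem h2 _

theorem prod_sum (u v : Fin r → Qbarˣ) (s t α β : Fin r → Qbar) :
    ∑ J : Fin (r * r), (UU u v J : Qbar) * (SS s t J *
      (α (finProdFinEquiv.symm J).1 * β (finProdFinEquiv.symm J).2)) =
      (∑ j, (u j : Qbar) * s j * α j) * ∑ j, (v j : Qbar) * t j * β j := by
  rw [Finset.sum_mul_sum, ← Finset.sum_product', Finset.univ_product_univ]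
  refine Fintype.sum_equiv finProdFinEquiv.symm _ _ fun J => ?_
  unfold UU SS
  rw [Units.val_mul]
  ring

/-- the point -/
theorem psum_eq (u v : Fin r → Qbarˣ) (s t : Fin r → Qbar) (a b : Fin 2 → Fin r → Qbar)
    (x y : Qbar) (hW : ∑ j, (u j : Qbar) * s j * a 1 j ≠ 0)
    (hx : x = (∑ j, (u j : Qbar) * s j * a 0 j) / ∑ j, (u j : Qbar) * s j * a 1 j)
    (hZ : ∑ j, (v j : Qbar) * t j * b 1 j ≠ 0)
    (hy : y = (∑ j, (v j : Qbar) * t j * b 0 j) / ∑ j, (v j : Qbar) * t j * b 1 j) :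
    psum (n := 2) Finset.univ (UU u v) (fun J i => SS s t J * VV a b J i) =
      ((∑ j, (u j : Qbar) * s j * a 1 j) * ∑ j, (v j : Qbar) * t j * b 1 j) • ![1, x, y] := by
  funext i
  unfold Pool.Agent.Y215.SK.psum VV
  rw [prod_sum u v s t (a (![1, 0, 1] i)) (b (![1, 1, 0] i)), hx, hy]
  fin_cases i
  · simp
  · simp
    field_simp
  · simp
    field_simp

theorem SS_height (s t : Fin r → Qbar) (hs : s ≠ 0) (ht : t ≠ 0) :
    absLogHeight (SS s t) ≤ absLogHeight s + absLogHeight t :=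
  height_mul_le s t hs ht (τ := Fin (r * r)) (fun J => (finProdFinEquiv.symm J).1)
    (fun J => (finProdFinEquiv.symm J).2)

theorem ne_of_sum {u : Fin r → Qbarˣ} {s α : Fin r → Qbar}
    (h : ∑ j, (u j : Qbar) * s j * α j ≠ 0) : s ≠ 0 := by
  rintro rfl
  apply h
  simp

variable {m : ℕ}

/-- the homogeneous coordinates `(1, x, y)` lie on the curve and off the excluded locus -/
theorem onOff_one (f : Polynomial Qbar) (hf : f.Separable) (ι : ℚ →+* Qbar) (x y : Qbar)
    (hxy : y ^ 2 = f.eval x) (h1 : 1 ≤ f.natDegree) :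
    aeval ![1, x, y] (fam ι (fun k : Fin (f.natDegree + 1) => f.coeff k) (eqn f.natDegree)) = 0 ∧
    aeval ![1, x, y] (fam ι (fun k : Fin (f.natDegree + 1) => f.coeff k) (gg f.natDegree)) ≠ 0 := by
  constructor
  · rw [aeval_eqn]
    simp only [Matrix.cons_val_zero, Matrix.cons_val_one, Matrix.cons_val, one_pow, mul_one]
    rw [hxy, sub_eq_zero, Polynomial.eval_eq_sum_range,
      ← Fin.sum_univ_eq_sum_range (fun k => f.coeff k * x ^ k)]
    rfl
  · rw [aeval_gg, pol_of f _ le_rfl]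
    refine mul_ne_zero (by simp) (mul_ne_zero ?_ (res_ne f hf))
    rw [Fin.val_last]
    refine Polynomial.leadingCoeff_ne_zero.2 ?_
    rintro rfl
    simp at h1

/-- the homogeneous coordinates of the point lie on the curve and off the excluded locus -/
theorem onOff_smul (f : Polynomial Qbar) (hf : f.Separable) (ι : ℚ →+* Qbar) (x y : Qbar)
    (hxy : y ^ 2 = f.eval x) (h1 : 2 ≤ f.natDegree) (c : Qbar) (hc : c ≠ 0) :
    OnOff (n := 2) (fun _ : Fin 1 => fam ι (fun k : Fin (f.natDegree + 1) => f.coeff k)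
      (eqn f.natDegree)) (fam ι (fun k : Fin (f.natDegree + 1) => f.coeff k) (gg f.natDegree))
      (c • ![1, x, y]) := by
  obtain ⟨e1, e2⟩ := onOff_one f hf ι x y hxy (by omega)
  have hsm : (c • ![1, x, y] : Fin 3 → Qbar) = fun i => c * ![1, x, y] i := rfl
  have hne : ![1, x, y] ≠ (0 : Fin 3 → Qbar) := by
    intro h
    have := congrFun h 0
    simp at this
  refine ⟨smul_ne_zero hc hne, fun _ => ?_, ?_⟩
  · have hh : (fam ι (fun k : Fin (f.natDegree + 1) => f.coeff k)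
      (eqn f.natDegree)).IsHomogeneous f.natDegree := (eqn_hom _ h1).map _
    rw [hsm, aeval_hom_smul _ hh, e1, mul_zero]
  · have hh : (fam ι (fun k : Fin (f.natDegree + 1) => f.coeff k)
      (gg f.natDegree)).IsHomogeneous 1 := (gg_hom _).map _
    rw [hsm, aeval_hom_smul _ hh]
    exact mul_ne_zero (pow_ne_zero _ hc) e2

end Pool.Agent.Q194.UG
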