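import Mathlib
import Pool.Agent.Q194.UG.Pts

set_option autoImplicit false

/-!
# Heights and number of the points whose coordinates are quotients of sums
-/

namespace Pool.Agent.Q194.UG

open MvPolynomial
open Pool.Agent.Q51.UF.K
open Pool.Agent.Helper259.AbsHt Pool.Agent.Y215.SK
open Pool.Agent.Y215.AF (hA)
open Pool.Agent.Y215.SP (epsn epsn_pos)

variable {r : ℕ}

/-- the points -/
def Pts (f : Polynomial Qbar) (Γ : Subgroup Qbarˣ) (ε : ℝ) (a b : Fin 2 → Fin r → Qbar) :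
    Set (Qbar × Qbar) :=
  {q | q.2 ^ 2 = f.eval q.1 ∧ IsQ Γ ε a q.1 ∧ IsQ Γ ε b q.2}

/-- the height of a polynomial -/
noncomputable def hP (f : Polynomial Qbar) : ℝ :=
  absLogHeight (fun o : Option (Fin (f.natDegree + 1)) => o.elim (1 : Qbar) (fun k => f.coeff k))

theorem hP_nonneg (f : Polynomial Qbar) : 0 ≤ hP f := absLogHeight_nonneg _

theorem one_xy_ne (x y : Qbar) : ![1, x, y] ≠ (0 : Fin 3 → Qbar) := by
  intro h
  have := congrFun h 0
  simp at this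

theorem heights_fixed (m : ℕ) (hm : 3 ≤ m) (r : ℕ) (Γ : Subgroup Qbarˣ) (hΓ : Γ.FG) (ε : ℝ)
    (hε : 0 < ε) : ∃ A : ℝ, 0 ≤ A ∧ ∀ f : Polynomial Qbar, f.Separable → f.natDegree = m →
      ∀ (a b : Fin 2 → Fin r → Qbar), ∀ q ∈ Pts f Γ ε a b,
        absLogHeight ![1, q.1, q.2] ≤ A * (1 + hP f + hD a + hD b) := by
  classical
  let ι : ℚ →+* Qbar := algebraMap ℚ Qbar
  obtain ⟨C, hC⟩ := mult_boundU (r := r * r) ι (fun _ : Fin 1 => eqn m)
    (fun _ => ⟨m, eqn_hom m (by omega)⟩) (gg m) ⟨1, gg_hom m⟩ Set.univ (cond m hm (r * r)) Γ hΓ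
  refine ⟨((r * r : ℕ) : ℝ) + (2 * ε + 1) + |C| * (1 + 2 * ε), by positivity, ?_⟩
  rintro f hf rfl a b ⟨x, y⟩ ⟨hxy, ⟨u, s, hu, hs, hW, hx⟩, ⟨v, t, hv, ht, hZ, hy⟩⟩
  simp only at hxy hx hy ⊢
  obtain ⟨c, hc⟩ : ∃ c : Qbar, c = (∑ j, (u j : Qbar) * s j * a 1 j) *
    ∑ j, (v j : Qbar) * t j * b 1 j := ⟨_, rfl⟩
  have hc0 : c ≠ 0 := by rw [hc]; exact mul_ne_zero hW hZ
  have hpt := psum_eq u v s t a b x y hW hx hZ hy
  rw [← hc] at hpt
  have hoo := onOff_smul f hf ι x y hxy (by omega) c hc0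
  obtain ⟨J, hJ, hh⟩ := hC (fun k => f.coeff k) (UU u v) (fun J i => SS s t J * VV a b J i)
    (fun j i h => absurd (Set.mem_univ _) h) (UU_hull Γ u v hu hv) (by rw [hpt]; exact hoo)
  obtain ⟨c', hc', hc2⟩ := good_prop J (UU u v) _ hJ (by rw [hpt]; exact hoo.1)
  have h3 := psum_height J (UU u v) (fun J i => SS s t J * VV a b J i)
  rw [hc2, absLogHeight_smul _ hc', hpt, absLogHeight_smul _ hc0] at h3
  have hs0 : s ≠ 0 := ne_of_sum hW
  have ht0 : t ≠ 0 := ne_of_sum hZ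
  have hS := SS_height s t hs0 ht0
  have hVs : hV (n := 2) (fun J i => SS s t J * VV a b J i) ≤ 2 * ε + (hD a + hD b) := by
    have hSne : SS s t ≠ 0 := by
      intro h
      apply hoo.1
      rw [← hpt]
      funext i
      unfold Pool.Agent.Y215.SK.psum
      simp [h]
    have hVne : (fun p : Fin (r * r) × Fin 3 => VV a b p.1 p.2) ≠ 0 := by
      intro h
      apply hoo.1
      rw [← hpt]
      funext i
      refine Finset.sum_eq_zero fun J _ => ?_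
      have h2 : VV a b J i = 0 := congrFun h (J, i)
      show _ * (_ * VV a b J i) = 0
      rw [h2, mul_zero, mul_zero]
    have h2 := height_mul_le (SS s t) (fun p : Fin (r * r) × Fin 3 => VV a b p.1 p.2) hSne hVne
      (τ := Fin (r * r) × Fin 3) (fun p => p.1) (fun p => p)
    have h4 := hV_VV a b
    unfold hV at h4 ⊢
    refine h2.trans ?_
    linarith
  have ha0 := hD_nonneg a
  have hb0 := hD_nonneg b
  have hf0 := hP_nonneg f
  have hfe : hA (fun k : Fin (f.natDegree + 1) => f.coeff k) = hP f := rfl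
  rw [hfe] at hh
  have hV0 : 0 ≤ hV (n := 2) (fun J i => SS s t J * VV a b J i) := absLogHeight_nonneg _
  obtain ⟨K, hK⟩ : ∃ K : ℝ, K = hV (n := 2) (fun J i => SS s t J * VV a b J i) := ⟨_, rfl⟩
  rw [← hK] at hh h3 hVs hV0
  obtain ⟨R, hR⟩ : ∃ R : ℝ, R = ((r * r : ℕ) : ℝ) := ⟨_, rfl⟩
  rw [← hR] at h3 ⊢
  have hR0 : 0 ≤ R := by rw [hR]; exact Nat.cast_nonneg _
  obtain ⟨H, hH⟩ : ∃ H : ℝ, H = hP f + hD a + hD b := ⟨_, rfl⟩
  have hH0 : 0 ≤ H := by rw [hH]; positivity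
  have h5 : C * (1 + hP f + K) ≤ |C| * ((1 + 2 * ε) * (1 + H)) := by
    refine mul_le_mul (le_abs_self C) ?_ (by linarith) (abs_nonneg C)
    nlinarith [mul_nonneg hε.le hH0]
  have h6 : 1 + hP f + hD a + hD b = 1 + H := by rw [hH]; ring
  rw [h6]
  nlinarith [mul_nonneg hR0 hH0, mul_nonneg hε.le hH0]

theorem near_fixed (m : ℕ) (hm : 3 ≤ m) (D : ℕ) (hmD : m ≤ D) (r : ℕ) (Γ : Subgroup Qbarˣ)
    (hΓ : Γ.FG) : ∃ (B : ℝ) (e : ℕ), 0 ≤ B ∧ ∀ f : Polynomial Qbar, f.Separable →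
      f.natDegree = m → ∀ (a b : Fin 2 → Fin r → Qbar),
        (Pts f Γ (epsn ((D + 1) ^ (r * r)) / D / 2 / 2) a b).Finite ∧
        ((Pts f Γ (epsn ((D + 1) ^ (r * r)) / D / 2 / 2) a b).ncard : ℝ) ≤
          B * (1 + hP f + hD a + hD b) ^ e := by
  classical
  let ι : ℚ →+* Qbar := algebraMap ℚ Qbar
  obtain ⟨B, e, hB⟩ := mix_finiteU (r := r * r) ι (fun _ : Fin 1 => eqn m) D (by omega)
    (fun _ => ⟨m, hmD, eqn_hom m (by omega)⟩) (gg m) ⟨1, gg_hom m⟩ Set.univ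
    (cond m hm (r * r)) Γ hΓ
  refine ⟨|B|, e, abs_nonneg _, ?_⟩
  rintro f hf rfl a b
  obtain ⟨hfin, hcard⟩ := hB (fun k => f.coeff k) (VV a b)
    (fun j i h => absurd (Set.mem_univ _) h)
  let θ : Qbar × Qbar → Projectivization Qbar (Fin (2 + 1) → Qbar) := fun q =>
    Projectivization.mk Qbar ![1, q.1, q.2] (one_xy_ne q.1 q.2)
  have hmaps : ∀ q ∈ Pts f Γ (epsn ((D + 1) ^ (r * r)) / D / 2 / 2) a b,
      θ q ∈ mixPts (n := 2) (fun _ : Fin 1 =>
        fam ι (fun k : Fin (f.natDegree + 1) => f.coeff k) (eqn f.natDegree))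
        (fam ι (fun k : Fin (f.natDegree + 1) => f.coeff k) (gg f.natDegree)) Γ
        (epsn ((D + 1) ^ (r * r)) / D / 2) (VV a b) := by
    rintro ⟨x, y⟩ ⟨hxy, ⟨u, s, hu, hs, hW, hx⟩, ⟨v, t, hv, ht, hZ, hy⟩⟩
    simp only at hxy hx hy
    obtain ⟨c, hc⟩ : ∃ c : Qbar, c = (∑ j, (u j : Qbar) * s j * a 1 j) *
      ∑ j, (v j : Qbar) * t j * b 1 j := ⟨_, rfl⟩
    have hc0 : c ≠ 0 := by rw [hc]; exact mul_ne_zero hW hZ
    have hpt := psum_eq u v s t a b x y hW hx hZ hy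
    rw [← hc] at hpt
    have hoo := onOff_smul f hf ι x y hxy (by omega) c hc0
    have hS := SS_height s t (ne_of_sum hW) (ne_of_sum hZ)
    refine ⟨UU u v, SS s t, UU_hull Γ u v hu hv, by linarith, ?_, ?_, ?_⟩
    · rw [hpt]
      exact hoo
    · rw [hpt]
      exact hoo.1
    · show Projectivization.mk Qbar ![1, x, y] (one_xy_ne x y) = _
      rw [Projectivization.mk_eq_mk_iff']
      refine ⟨c⁻¹, ?_⟩
      rw [hpt, smul_smul, inv_mul_cancel₀ hc0, one_smul]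
  have hinj : Set.InjOn θ (Pts f Γ (epsn ((D + 1) ^ (r * r)) / D / 2 / 2) a b) := by
    rintro ⟨x, y⟩ _ ⟨x', y'⟩ _ h
    obtain ⟨c, hc⟩ := (Projectivization.mk_eq_mk_iff' Qbar _ _ (one_xy_ne x y)
      (one_xy_ne x' y')).1 h
    have h0 := congrFun hc 0
    have h1 := congrFun hc 1
    have h2 := congrFun hc 2
    simp only [Pi.smul_apply, smul_eq_mul, Matrix.cons_val_zero, Matrix.cons_val_one,
      Matrix.cons_val, mul_one] at h0 h1 h2
    rw [h0, one_mul] at h1 h2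
    rw [h1, h2]
  have hfin' : (Pts f Γ (epsn ((D + 1) ^ (r * r)) / D / 2 / 2) a b).Finite :=
    Set.Finite.of_injOn hmaps hinj hfin
  refine ⟨hfin', ?_⟩
  have h1 := Set.ncard_le_ncard_of_injOn θ hmaps hinj hfin
  have h2 : ((Pts f Γ (epsn ((D + 1) ^ (r * r)) / D / 2 / 2) a b).ncard : ℝ) ≤
      B * (1 + hP f + hV (n := 2) (VV a b)) ^ e := le_trans (by exact_mod_cast h1) hcard
  refine h2.trans ?_
  have h3 : 0 ≤ hV (n := 2) (VV a b) := absLogHeight_nonneg _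
  have h4 := hV_VV a b
  have h5 := hP_nonneg f
  exact mul_le_mul (le_abs_self B) (pow_le_pow_left₀ (by linarith) (by linarith) _)
    (by positivity) (abs_nonneg _)

/-- **Heights and number, all degrees at most `n`.** -/
theorem main (n r : ℕ) : ∃ ε : ℝ, 0 < ε ∧ ∀ Γ : Subgroup Qbarˣ, Γ.FG →
    ∃ (A : ℝ) (e : ℕ), 0 ≤ A ∧ ∀ f : Polynomial Qbar, f.Separable → 3 ≤ f.natDegree →
      f.natDegree ≤ n → ∀ (a b : Fin 2 → Fin r → Qbar),
        (∀ q ∈ Pts f Γ ε a b, absLogHeight ![1, q.1, q.2] ≤ A * (1 + hP f + hD a + hD b)) ∧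
        (Pts f Γ ε a b).Finite ∧
        ((Pts f Γ ε a b).ncard : ℝ) ≤ A * (1 + hP f + hD a + hD b) ^ e := by
  classical
  obtain ⟨D, hD1⟩ : ∃ D : ℕ, D = n + 1 := ⟨_, rfl⟩
  have hε : 0 < epsn ((D + 1) ^ (r * r)) / D / 2 / 2 :=
    half_pos (half_pos (div_pos (epsn_pos _ (Nat.one_le_pow _ _ (by omega)))
      (by rw [hD1]; positivity)))
  refine ⟨_, hε, fun Γ hΓ => ?_⟩
  have h1 : ∀ m : ℕ, ∃ (A : ℝ) (e : ℕ), 0 ≤ A ∧ ∀ f : Polynomial Qbar, f.Separable →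
      3 ≤ f.natDegree → f.natDegree ≤ n → f.natDegree = m → ∀ (a b : Fin 2 → Fin r → Qbar),
        (∀ q ∈ Pts f Γ (epsn ((D + 1) ^ (r * r)) / D / 2 / 2) a b,
          absLogHeight ![1, q.1, q.2] ≤ A * (1 + hP f + hD a + hD b)) ∧
        (Pts f Γ (epsn ((D + 1) ^ (r * r)) / D / 2 / 2) a b).Finite ∧
        ((Pts f Γ (epsn ((D + 1) ^ (r * r)) / D / 2 / 2) a b).ncard : ℝ) ≤
          A * (1 + hP f + hD a + hD b) ^ e := by
    intro m
    by_cases hm : 3 ≤ m ∧ m ≤ n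
    · obtain ⟨A, hA0, hA⟩ := heights_fixed m hm.1 r Γ hΓ _ hε
      obtain ⟨B, e, hB0, hB⟩ := near_fixed m hm.1 D (by omega) r Γ hΓ
      refine ⟨A + B, e, by positivity, fun f hf h3 hn hfm a b => ⟨fun q hq => ?_, ?_, ?_⟩⟩
      · refine (hA f hf hfm a b q hq).trans ?_
        have := hP_nonneg f
        have := hD_nonneg a
        have := hD_nonneg b
        exact mul_le_mul_of_nonneg_right (by linarith) (by linarith)
      · exact (hB f hf hfm a b).1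
      · refine ((hB f hf hfm a b).2).trans ?_
        have := hP_nonneg f
        have := hD_nonneg a
        have := hD_nonneg b
        exact mul_le_mul_of_nonneg_right (by linarith) (pow_nonneg (by linarith) _)
    · refine ⟨0, 0, le_rfl, fun f hf h3 hn hfm a b => ?_⟩
      exact absurd ⟨by omega, by omega⟩ hm
  choose A e hA0 hA using h1
  refine ⟨∑ m ∈ Finset.range (n + 1), A m, ∑ m ∈ Finset.range (n + 1), e m,
    Finset.sum_nonneg fun m _ => hA0 m, fun f hf h3 hn a b => ?_⟩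
  obtain ⟨g1, g2, g3⟩ := hA f.natDegree f hf h3 hn rfl a b
  have k1 : A f.natDegree ≤ ∑ m ∈ Finset.range (n + 1), A m :=
    Finset.single_le_sum (f := A) (fun m _ => hA0 m) (Finset.mem_range.2 (by omega))
  have k2 : e f.natDegree ≤ ∑ m ∈ Finset.range (n + 1), e m :=
    Finset.single_le_sum (f := e) (fun m _ => Nat.zero_le _) (Finset.mem_range.2 (by omega))
  have l1 := hP_nonneg f
  have l2 := hD_nonneg a
  have l3 := hD_nonneg b
  have l4 : 1 ≤ 1 + hP f + hD a + hD b := by linarith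
  refine ⟨fun q hq => (g1 q hq).trans (mul_le_mul_of_nonneg_right k1 (by linarith)), g2,
    g3.trans ?_⟩
  exact mul_le_mul k1 (pow_le_pow_right₀ l4 k2) (pow_nonneg (by linarith) _)
    ((hA0 _).trans k1)

end Pool.Agent.Q194.UG
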