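import Mathlib
import Pool.Agent.Q194.UG.Main
import Pool.Agent.Q204.UF.IntH

set_option autoImplicit false

/-!
# Integral points
-/

namespace Pool.Agent.Q194.UG

open Pool.Agent.Helper259.AbsHt Pool.Agent.Y215.SK Pool.Agent.Q204.UF
open Pool.Agent.Y215.AF (hA)

theorem hP_int (f : Polynomial ℤ) (H : ℕ) (hH : 1 ≤ H) (h : ∀ i, |f.coeff i| ≤ H) :
    hP (f.map (Int.castRingHom Qbar)) ≤ Real.log H := by
  have h1 : hP (f.map (Int.castRingHom Qbar)) =
      hA (fun k : Fin ((f.map (Int.castRingHom Qbar)).natDegree + 1) => ((f.coeff k : ℤ) : Qbar)) := by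
    unfold hP hA
    congr 1
    funext o
    cases o with
    | none => rfl
    | some k =>
      show (f.map (Int.castRingHom Qbar)).coeff k = _
      rw [Polynomial.coeff_map]
      rfl
  rw [h1]
  exact hA_int_le _ H hH fun k => h k

theorem log_le_height (x y : ℤ) :
    Real.log (max (max |(x : ℝ)| |(y : ℝ)|) 1) ≤ absLogHeight ![1, (x : Qbar), (y : Qbar)] := by
  have h1 : hA (fun i : Fin 2 => ((![x, y] i : ℤ) : Qbar)) ≤
      absLogHeight ![1, (x : Qbar), (y : Qbar)] := by
    have h2 := absLogHeight_comp_le (ι := Option (Fin 2)) (ι' := Fin 3)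
      (fun o => o.elim 0 Fin.succ) ![1, (x : Qbar), (y : Qbar)]
    refine le_of_eq_of_le ?_ h2
    unfold hA
    congr 1
    funext o
    cases o with
    | none => rfl
    | some i => fin_cases i <;> simp
  have hx := le_hA_int (fun i : Fin 2 => ![x, y] i) 0
  have hy := le_hA_int (fun i : Fin 2 => ![x, y] i) 1
  have h0 : 0 ≤ hA (fun i : Fin 2 => ((![x, y] i : ℤ) : Qbar)) := absLogHeight_nonneg _
  refine le_trans ?_ h1
  rw [← Real.log_exp (hA (fun i : Fin 2 => ((![x, y] i : ℤ) : Qbar)))]
  refine Real.log_le_log (by positivity) (max_le (max_le ?_ ?_) ?_)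
  · simpa using hx
  · simpa using hy
  · exact Real.one_le_exp h0

theorem sep_int (f : Polynomial ℤ) (h : (f.map (Int.castRingHom ℚ)).Separable) :
    (f.map (Int.castRingHom Qbar)).Separable := by
  have h1 : f.map (Int.castRingHom Qbar) =
      (f.map (Int.castRingHom ℚ)).map (algebraMap ℚ Qbar) := by
    rw [Polynomial.map_map]
    congr 1
  rw [h1]
  exact h.map

theorem deg_int (f : Polynomial ℤ) : (f.map (Int.castRingHom Qbar)).natDegree = f.natDegree :=
  Polynomial.natDegree_map_eq_of_injective (RingHom.injective_int _) _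

theorem eval_int (f : Polynomial ℤ) (x y : ℤ) (h : y ^ 2 = f.eval x) :
    (y : Qbar) ^ 2 = (f.map (Int.castRingHom Qbar)).eval (x : Qbar) := by
  have h1 := Polynomial.eval_intCast_map (Int.castRingHom Qbar) f x
  rw [h1, Int.cast_id, ← h]
  simp

end Pool.Agent.Q194.UG
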